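import Pool.Agent.W2helper31.NM.Curve

set_option autoImplicit false

/-!
# Nef classes most of whose coefficients are maximal

For very general points of the plane let `D = c H - ∑ x_i E_i` be a class with real coefficients
`x_i ≥ 0` and `D ^ 2 = 0`, let `M` be the largest coefficient and `r` the number of different
coefficients strictly between `0` and `M`. If `M` is attained at least `36` and at least `4 r + 2`
times, then `D` is nef. So, if `(n - 2) / 5` of the coefficients are arbitrary numbers in `[0, M]`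
and the others are `M`, the ray is on the boundary of the cone of curves. In general it is enough that `c ≥ 6 M` (or
`c = 4 M`, `c = 5 M`), that `(4 r + 2) M ^ 2 ≤ c ^ 2`, and that at most as many values `t` are attained
at most `M / t` times as the value `M` is attained.

Dually: let `B` be a set of `N ≥ 36` points and let `A_1, …, A_r` be disjoint sets of other points,
`4 r + 2 ≤ N`. If the average multiplicity of a curve of degree `e` on each `A_l` is at most its
average multiplicity on `B`, then
`∑_l (∑_{A_l} m_i) ^ 2 / |A_l| + (∑_B m_i) ^ 2 / |B| ≤ e ^ 2`.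
-/

namespace Pool.Agent.Results.MP_309968_ag.MostlyMaximal

open Pool.Agent.W2helper31.NM
open Pool.Agent.Results.MP_309968_ag.BoundaryRays (MultGE curvCone cone_le)

/-- For very general points `p`: (1) A class `c H - ∑ x_i E_i` with `FewBelow x c M` is nonnegative
on the closed cone of curves. (2) In particular so is a class with `c ^ 2 = ∑ x_i ^ 2`, `c ≥ 0`,
`0 ≤ x_i ≤ M`, if `x_i = M` for all `i` outside a set `T` of points, and the number of the points
outside `T` is at least `36` and at least `4 |T| + 2`. (3) The dual form: let a form of degree `e`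
have multiplicity at least `m_i` at `p i`. Let `B` be a set of at least `36` and at least `4 r + 2`
points and let `A_1, …, A_r` be disjoint from each other and from `B`. If the average of the `m_i` on
each `A_l` is at most their average on `B`, then
`∑_l (∑_{A_l} m_i) ^ 2 / |A_l| + (∑_B m_i) ^ 2 / |B| ≤ e ^ 2`. -/
theorem result (n : ℕ) :
    ∃ f : ℕ → MvPolynomial (Fin n × Fin 2) ℂ, (∀ k, f k ≠ 0) ∧
      ∀ p : Fin n → Fin 2 → ℂ,
        (∀ k, MvPolynomial.eval (fun q : Fin n × Fin 2 => p q.1 q.2) (f k) ≠ 0) →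
        (∀ (x : Fin n → ℝ) (c M : ℝ), FewBelow x c M →
          ∀ z ∈ curvCone p, ∑ i, x i * z.2 i ≤ c * z.1) ∧
        (∀ (x : Fin n → ℝ) (c M : ℝ) (T : Finset (Fin n)), 0 ≤ c → (∀ i, 0 ≤ x i) →
          (∀ i, x i ≤ M) → (∀ i, i ∉ T → x i = M) → 36 ≤ Tᶜ.card → 4 * T.card + 2 ≤ Tᶜ.card →
          ∑ i, x i ^ 2 = c ^ 2 → ∀ z ∈ curvCone p, ∑ i, x i * z.2 i ≤ c * z.1) ∧
        ∀ (F : MvPolynomial (Fin 3) ℂ) (e : ℕ) (m : Fin n → ℕ), F.IsHomogeneous e → F ≠ 0 →
          (∀ i, MultGE (p i) F (m i)) →
          ∀ (B : Finset (Fin n)) (r : ℕ) (A : Fin r → Finset (Fin n)), 36 ≤ B.card →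
            4 * r + 2 ≤ B.card → (∀ l, Disjoint (A l) B) →
            (Pairwise fun l l' => Disjoint (A l) (A l')) →
            (∀ l, (∑ i ∈ A l, (m i : ℝ)) / (A l).card ≤ (∑ i ∈ B, (m i : ℝ)) / B.card) →
            ∑ l, (∑ i ∈ A l, (m i : ℝ)) ^ 2 / (A l).card +
              (∑ i ∈ B, (m i : ℝ)) ^ 2 / B.card ≤ (e : ℝ) ^ 2 := by
  classical
  obtain ⟨f, hf, hf'⟩ := form_le n
  have hcone : ∀ p : Fin n → Fin 2 → ℂ,
      (∀ k, MvPolynomial.eval (fun q : Fin n × Fin 2 => p q.1 q.2) (f k) ≠ 0) →
      ∀ (x : Fin n → ℝ) (c M : ℝ), FewBelow x c M →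
        ∀ z ∈ curvCone p, ∑ i, x i * z.2 i ≤ c * z.1 := by
    intro p hp x c M hx
    have h := cone_le (p := p) (l := x) (g := id) (c := c) hx.nonneg
      fun F e m hF he hF0 hm => by
        have h1 := hf' p hp x c M hx F e m hF hF0 hm
        simp only [id]
        linarith
    simpa using h
  refine ⟨f, hf, fun p hp => ⟨hcone p hp, ?_, fun F e m hF hF0 hm => ?_⟩⟩
  · intro x c M T hc hx0 hxM hT h36 hr hsq
    have hTc : (0 : ℝ) < Tᶜ.card := by exact_mod_cast (by omega : 0 < Tᶜ.card)
    obtain ⟨i0, hi0⟩ := Finset.card_pos.1 (by omega : 0 < Tᶜ.card)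
    have hM0 : 0 ≤ M := (hx0 i0).trans (hxM i0)
    rcases hM0.lt_or_eq with hM | hM
    · have hcM : (Tᶜ.card : ℝ) * M ^ 2 ≤ c ^ 2 := by
        rw [← hsq]
        have h1 : (Tᶜ.card : ℝ) * M ^ 2 = ∑ i ∈ Tᶜ, x i ^ 2 := by
          rw [Finset.sum_congr rfl fun i hi => by rw [hT i (Finset.mem_compl.1 hi)],
            Finset.sum_const, nsmul_eq_mul]
        rw [h1]
        exact Finset.sum_le_sum_of_subset_of_nonneg (Finset.subset_univ _)
          fun _ _ _ => sq_nonneg _
      have h36' : (36 : ℝ) ≤ Tᶜ.card := by exact_mod_cast h36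
      have hr' : 4 * (T.card : ℝ) + 2 ≤ Tᶜ.card := by exact_mod_cast hr
      have hM2 : 0 < M ^ 2 := by positivity
      have hsmall : smallValues x M ⊆ T.image x := by
        intro t ht
        obtain ⟨⟨i, hi⟩, h1, h2⟩ := mem_small.1 ht
        rw [Finset.mem_image]
        refine ⟨i, ?_, hi⟩
        by_contra hcon
        rw [← hi, hT i hcon] at h2
        exact lt_irrefl _ h2
      have hcard : (smallValues x M).card ≤ T.card :=
        (Finset.card_le_card hsmall).trans Finset.card_image_le
      have hcard' : ((smallValues x M).card : ℝ) ≤ T.card := by exact_mod_cast hcard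
      refine hcone p hp x c M ⟨hM, hx0, hxM, hsq, Or.inr (Or.inr ?_), ?_, ?_⟩
      · have h1 : (6 * M) ^ 2 ≤ c ^ 2 := by nlinarith
        exact le_of_sq_le_sq h1 hc
      · nlinarith
      · refine (Finset.card_filter_le _ _).trans (hcard.trans ?_)
        have h1 : Tᶜ.card ≤ count x M := Finset.card_le_card fun i hi =>
          Finset.mem_filter.2 ⟨Finset.mem_univ _, hT i (Finset.mem_compl.1 hi)⟩
        omega
    · have hx : ∀ i, x i = 0 := fun i => le_antisymm (by rw [hM]; exact hxM i) (hx0 i)
      have hc0 : c = 0 := by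
        have h1 : c ^ 2 = 0 := by
          rw [← hsq]
          exact Finset.sum_eq_zero fun i _ => by rw [hx i]; norm_num
        exact pow_eq_zero_iff two_ne_zero |>.1 h1
      intro z _
      rw [hc0, zero_mul]
      exact le_of_eq (Finset.sum_eq_zero fun i _ => by rw [hx i, zero_mul])
  · have hineq : Ineq e m := fun x c M hx => hf' p hp x c M hx F e m hF hF0 hm
    exact fun B r A h36 hr hAB hAA hle => average_le hineq B r A h36 hr hAB hAA hle

end Pool.Agent.Results.MP_309968_ag.MostlyMaximal
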